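import Mathlib

open SimpleGraph

namespace Pool.Agent.Y587.FL

variable {A : Type} (K : SimpleGraph A) (r c : A)

open Classical in
/-- the `i`-th page: the vertices `r` and `c` of all pages are identified -/
noncomputable def pg (i : ℕ) (a : A) : ℕ × A := if a = r ∨ a = c then (0, a) else (i, a)

theorem pg_sp (i : ℕ) {a : A} (h : a = r ∨ a = c) : pg r c i a = (0, a) := by simp [pg, h]

theorem pg_ne (i : ℕ) {a : A} (h : ¬ (a = r ∨ a = c)) : pg r c i a = (i, a) := by simp [pg, h]

theorem pg_snd (i : ℕ) (a : A) : (pg r c i a).2 = a := by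
  by_cases h : a = r ∨ a = c
  · rw [pg_sp r c i h]
  · rw [pg_ne r c i h]

theorem pg_inj (i : ℕ) : Function.Injective (pg r c i) := by
  intro a b h
  rw [← pg_snd r c i a, ← pg_snd r c i b, h]

theorem pg_idx {i j : ℕ} {a b : A} (h : pg r c i a = pg r c j b) (ha : ¬ (a = r ∨ a = c)) :
    i = j := by
  have h2 : a = b := by rw [← pg_snd r c i a, ← pg_snd r c j b, h]
  subst h2
  rw [pg_ne r c i ha, pg_ne r c j ha] at h
  exact (Prod.mk.inj h).1

/-- `n` copies of `K` glued at the two vertices `r`, `c` -/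
noncomputable def book (n : ℕ) : SimpleGraph (ℕ × A) where
  Adj x y := ∃ i, i < n ∧ ∃ a b, K.Adj a b ∧ x = pg r c i a ∧ y = pg r c i b
  symm := ⟨by
    rintro x y ⟨i, hi, a, b, h, hx, hy⟩
    exact ⟨i, hi, b, a, h.symm, hy, hx⟩⟩
  loopless := ⟨by
    rintro x ⟨i, hi, a, b, h, hx, hy⟩
    have : a = b := pg_inj r c i (hx.symm.trans hy)
    subst this
    exact K.loopless.irrefl _ h⟩

variable {K} {r c}

theorem nbr_of_conn (hK : K.Connected) (he : ∃ a b, K.Adj a b) (v : A) : ∃ w, K.Adj v w := by
  obtain ⟨a, b, hab⟩ := he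
  have key : ∀ u, u ≠ v → ∃ w, K.Adj v w := by
    intro u hu
    obtain ⟨p⟩ := hK.preconnected v u
    cases p with
    | nil => exact absurd rfl hu
    | cons h _ => exact ⟨_, h⟩
  by_cases ha : a = v
  · exact ⟨b, ha ▸ hab⟩
  · exact key a ha

/-- a function which is constant along edges of `K` avoiding `v0` is constant outside `v0` -/
theorem const_off {B : Type} (v0 : A) (hcut : (K.induce {v0}ᶜ).Preconnected) (φ : A → B)
    (h : ∀ a b, K.Adj a b → a ≠ v0 → b ≠ v0 → φ a = φ b) (a b : A) (ha : a ≠ v0) (hb : b ≠ v0) :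
    φ a = φ b := by
  have key : ∀ x y : ({v0}ᶜ : Set A), φ x = φ y := by
    intro x y
    obtain ⟨p⟩ := hcut x y
    induction p with
    | nil => rfl
    | @cons u v w huv _ ih => exact (h u v huv u.2 v.2).trans ih
  exact key ⟨a, ha⟩ ⟨b, hb⟩

theorem const_all {B : Type} (hK : K.Preconnected) (φ : A → B)
    (h : ∀ a b, K.Adj a b → φ a = φ b) (a b : A) : φ a = φ b := by
  obtain ⟨p⟩ := hK a b
  induction p with
  | nil => rfl
  | @cons u v w huv _ ih => exact (h u v huv).trans ih

/-- every copy of a 2-connected graph `K` in a book contains the two special vertices -/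
theorem book_center [Finite A] (hK : K.Connected) (hcut : ∀ v, (K.induce {v}ᶜ).Preconnected)
    (he : ∃ a b, K.Adj a b) (n : ℕ) (g : A → ℕ × A) (hg : Function.Injective g)
    (hadj : ∀ a b, K.Adj a b → (book K r c n).Adj (g a) (g b)) (z : A) (hz : z = r ∨ z = c) :
    ∃ a, g a = (0, z) := by
  by_contra hc
  push Not at hc
  have hform : ∀ a, ∃ i x, g a = pg r c i x := by
    intro a
    obtain ⟨b, hb⟩ := nbr_of_conn hK he a
    obtain ⟨i, -, x, y, -, hx, -⟩ := hadj a b hb
    exact ⟨i, x, hx⟩
  -- second coordinates of special vertices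
  have hsp : ∀ a, ((g a).2 = r ∨ (g a).2 = c) → g a = (0, (g a).2) := by
    intro a ha
    obtain ⟨i, x, hx⟩ := hform a
    rw [hx, pg_snd] at ha ⊢
    rw [pg_sp r c i ha]
  have hedge : ∀ a b, K.Adj a b → ¬ ((g a).2 = r ∨ (g a).2 = c) → ¬ ((g b).2 = r ∨ (g b).2 = c) →
      (g a).1 = (g b).1 := by
    intro a b hab ha hb
    obtain ⟨i, -, x, y, -, hx, hy⟩ := hadj a b hab
    rw [hx, pg_snd] at ha
    rw [hy, pg_snd] at hb
    rw [hx, hy, pg_ne r c i ha, pg_ne r c i hb]
  have hconst : ∀ a b, ¬ ((g a).2 = r ∨ (g a).2 = c) → ¬ ((g b).2 = r ∨ (g b).2 = c) →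
      (g a).1 = (g b).1 := by
    by_cases hex : ∃ a', (g a').2 = r ∨ (g a').2 = c
    · obtain ⟨a', ha'⟩ := hex
      have huniq : ∀ a, ((g a).2 = r ∨ (g a).2 = c) → a = a' := by
        intro a ha
        apply hg
        have h1 := hsp a ha
        have h2 := hsp a' ha'
        have h3 : (g a).2 ≠ z := fun h => hc a (by rw [h1, h])
        have h4 : (g a').2 ≠ z := fun h => hc a' (by rw [h2, h])
        have h5 : (g a).2 = (g a').2 := by
          rcases hz with rfl | rfl <;> rcases ha with h | h <;> rcases ha' with h' | h'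
          all_goals first
            | exact absurd h h3
            | exact absurd h' h4
            | exact h.trans h'.symm
        rw [h1, h2, h5]
      intro a b ha hb
      refine const_off a' (hcut a') (fun a => (g a).1) ?_ a b ?_ ?_
      · intro x y hxy hx hy
        exact hedge x y hxy (fun h => hx (huniq x h)) (fun h => hy (huniq y h))
      · rintro rfl
        exact ha ha'
      · rintro rfl
        exact hb ha'
    · push Not at hex
      intro a b ha hb
      refine const_all hK.preconnected (fun a => (g a).1) ?_ a b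
      intro x y hxy
      exact hedge x y hxy (fun h => by rcases h with h | h; exacts [(hex x).1 h, (hex x).2 h])
        (fun h => by rcases h with h | h; exacts [(hex y).1 h, (hex y).2 h])
  have hinj : Function.Injective fun a => (g a).2 := by
    intro a b hab
    have hab' : (g a).2 = (g b).2 := hab
    apply hg
    by_cases ha : (g a).2 = r ∨ (g a).2 = c
    · have hb : (g b).2 = r ∨ (g b).2 = c := hab' ▸ ha
      rw [hsp a ha, hsp b hb, hab']
    · have hb : ¬ ((g b).2 = r ∨ (g b).2 = c) := hab' ▸ ha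
      exact Prod.ext (hconst a b ha hb) hab'
  obtain ⟨a, ha⟩ := (Finite.injective_iff_surjective.1 hinj) z
  have ha' : (g a).2 = z := ha
  have h1 := hsp a (by rw [ha']; exact hz)
  exact hc a (by rw [h1, ha'])

theorem book_finite [Finite A] (n : ℕ) : (book K r c n).edgeSet.Finite := by
  have h1 : (⋃ i ∈ Finset.range n, Sym2.map (pg r c i) '' (Set.univ : Set (Sym2 A))).Finite :=
    Set.Finite.biUnion (Finset.finite_toSet _) fun i _ => Set.Finite.image _ Set.finite_univ
  refine h1.subset ?_
  intro e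
  induction e with
  | _ x y =>
    rintro ⟨i, hi, a, b, -, hx, hy⟩
    simp only [Set.mem_iUnion, Set.mem_image]
    have hx' : x = pg r c i a := hx
    have hy' : y = pg r c i b := hy
    exact ⟨i, Finset.mem_range.2 hi, s(a, b), trivial, by rw [hx', hy']; rfl⟩

theorem book_miss {n : ℕ} {P : SimpleGraph (ℕ × A)} (hrc : ¬ K.Adj r c)
    (hfree : ¬ ∃ g : A → ℕ × A, Function.Injective g ∧ g r = (0, r) ∧
      ∀ a b, K.Adj a b → P.Adj (g a) (g b)) :
    (n : Cardinal) ≤ Cardinal.mk ↥((book K r c n).edgeSet \ P.edgeSet) := by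
  have h1 : ∀ i : Fin n, ∃ a b, K.Adj a b ∧ ¬ P.Adj (pg r c i a) (pg r c i b) := by
    intro i
    by_contra hc
    push Not at hc
    exact hfree ⟨pg r c i, pg_inj r c i, pg_sp r c i (Or.inl rfl), hc⟩
  choose x y hxy hP using h1
  rw [← Cardinal.mk_fin]
  refine Cardinal.mk_le_of_injective
    (f := fun i : Fin n => ⟨s(pg r c i (x i), pg r c i (y i)), ?_, ?_⟩) ?_
  · exact ⟨i, i.2, _, _, hxy i, rfl, rfl⟩
  · exact hP i
  · intro i j hij
    have h3 : s(pg r c i (x i), pg r c i (y i)) = s(pg r c j (x j), pg r c j (y j)) :=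
      congrArg Subtype.val hij
    rw [Sym2.eq_iff] at h3
    by_cases hx : x i = r ∨ x i = c
    · have hy : ¬ (y i = r ∨ y i = c) := by
        intro hy
        have h4 := hxy i
        rcases hx with hx | hx <;> rcases hy with hy | hy <;> rw [hx, hy] at h4
        · exact K.loopless.irrefl _ h4
        · exact hrc h4
        · exact hrc h4.symm
        · exact K.loopless.irrefl _ h4
      rcases h3 with h | h
      · exact Fin.ext (pg_idx r c h.2 hy)
      · exact Fin.ext (pg_idx r c h.2 hy)
    · rcases h3 with h | h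
      · exact Fin.ext (pg_idx r c h.1 hx)
      · exact Fin.ext (pg_idx r c h.1 hx)

end Pool.Agent.Y587.FL
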