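import Mathlib
import Pool.Agent.Y587.FL.Book

open SimpleGraph

namespace Pool.Agent.Y587.FL

section glue

variable {J : Type} {V : J → Type} (o : ∀ j, V j)

open Classical in
/-- the vertex `v` of the `j`-th graph; the roots `o j` are identified -/
noncomputable def emb (j : J) (v : V j) : Option (Σ j, V j) :=
  if v = o j then none else some ⟨j, v⟩

theorem emb_o (j : J) : emb o j (o j) = none := by simp [emb]

theorem emb_ne {j : J} {v : V j} (h : v ≠ o j) : emb o j v = some ⟨j, v⟩ := by simp [emb, h]

theorem emb_none {j : J} {v : V j} (h : emb o j v = none) : v = o j := by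
  by_contra hc
  rw [emb_ne o hc] at h
  exact absurd h (by simp)

theorem emb_inj (j : J) : Function.Injective (emb o j) := by
  intro a b h
  by_cases ha : a = o j
  · rw [ha, emb_o] at h
    rw [ha, emb_none o h.symm]
  · by_cases hb : b = o j
    · rw [hb, emb_o] at h
      exact absurd (emb_none o h) ha
    · rw [emb_ne o ha, emb_ne o hb] at h
      simpa using h

theorem emb_idx {j j' : J} {v : V j} {v' : V j'} (h : emb o j v = emb o j' v') (hv : v ≠ o j) :
    j = j' := by
  by_cases hv' : v' = o j'
  · rw [hv', emb_o] at h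
    exact absurd (emb_none o h) hv
  · rw [emb_ne o hv, emb_ne o hv'] at h
    have h1 := congrArg (Option.map Sigma.fst) h
    simpa using h1

/-- the graphs `P j` glued at their roots -/
noncomputable def glue (P : ∀ j, SimpleGraph (V j)) : SimpleGraph (Option (Σ j, V j)) where
  Adj x y := ∃ j a b, (P j).Adj a b ∧ x = emb o j a ∧ y = emb o j b
  symm := ⟨by
    rintro x y ⟨j, a, b, h, hx, hy⟩
    exact ⟨j, b, a, h.symm, hy, hx⟩⟩
  loopless := ⟨by
    rintro x ⟨j, a, b, h, hx, hy⟩
    have : a = b := emb_inj o j (hx.symm.trans hy)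
    subst this
    exact (P j).loopless.irrefl _ h⟩

variable {o}

theorem glue_emb {P : ∀ j, SimpleGraph (V j)} {j : J} {a b : V j} :
    (glue o P).Adj (emb o j a) (emb o j b) ↔ (P j).Adj a b := by
  constructor
  · rintro ⟨j', a', b', h, hx, hy⟩
    have hjj : j = j' := by
      by_cases ha : a = o j
      · have hb : b ≠ o j := by
          intro hb
          rw [ha, emb_o] at hx
          rw [hb, emb_o] at hy
          rw [emb_none o hx.symm, emb_none o hy.symm] at h
          exact (P j').loopless.irrefl _ h
        exact emb_idx o hy hb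
      · exact emb_idx o hx ha
    subst hjj
    rw [emb_inj o j hx, emb_inj o j hy]
    exact h
  · intro h
    exact ⟨j, a, b, h, rfl, rfl⟩

theorem glue_mono {P Q : ∀ j, SimpleGraph (V j)} (h : ∀ j, P j ≤ Q j) : glue o P ≤ glue o Q := by
  rintro x y ⟨j, a, b, hab, hx, hy⟩
  exact ⟨j, a, b, h j hab, hx, hy⟩

/-- a 2-connected graph in a graph glued at a vertex lies in one of the parts -/
theorem glue_conf {A : Type} {K : SimpleGraph A} (hK : K.Connected)
    (hcut : ∀ v, (K.induce {v}ᶜ).Preconnected) (he : ∃ a b, K.Adj a b)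
    {P : ∀ j, SimpleGraph (V j)} (f : A → Option (Σ j, V j)) (hf : Function.Injective f)
    (hadj : ∀ a b, K.Adj a b → (glue o P).Adj (f a) (f b)) :
    ∃ (j : J) (g : A → V j), Function.Injective g ∧ (∀ a, f a = emb o j (g a)) ∧
      ∀ a b, K.Adj a b → (P j).Adj (g a) (g b) := by
  have hform : ∀ a, ∃ j x, f a = emb o j x := by
    intro a
    obtain ⟨b, hb⟩ := nbr_of_conn hK he a
    obtain ⟨j, x, y, -, hx, -⟩ := hadj a b hb
    exact ⟨j, x, hx⟩
  -- index of a vertex
  have hedge : ∀ a b, K.Adj a b → f a ≠ none → f b ≠ none →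
      (f a).map Sigma.fst = (f b).map Sigma.fst := by
    intro a b hab ha hb
    obtain ⟨j, x, y, -, hx, hy⟩ := hadj a b hab
    have hx' : x ≠ o j := by
      rintro rfl
      exact ha (by rw [hx, emb_o])
    have hy' : y ≠ o j := by
      rintro rfl
      exact hb (by rw [hy, emb_o])
    rw [hx, hy, emb_ne o hx', emb_ne o hy']
    rfl
  have hconst : ∀ a b, f a ≠ none → f b ≠ none →
      (f a).map Sigma.fst = (f b).map Sigma.fst := by
    by_cases hex : ∃ a', f a' = none
    · obtain ⟨a', ha'⟩ := hex
      intro a b ha hb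
      refine const_off a' (hcut a') (fun a => (f a).map Sigma.fst) ?_ a b ?_ ?_
      · intro x y hxy hx hy
        exact hedge x y hxy (fun h => hx (hf (h.trans ha'.symm)))
          (fun h => hy (hf (h.trans ha'.symm)))
      · rintro rfl
        exact ha ha'
      · rintro rfl
        exact hb ha'
    · push Not at hex
      intro a b ha hb
      exact const_all hK.preconnected (fun a => (f a).map Sigma.fst)
        (fun x y hxy => hedge x y hxy (hex x) (hex y)) a b
  obtain ⟨a0, b0, hab0⟩ := he
  obtain ⟨w, hw⟩ : ∃ w, f w ≠ none := by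
    by_contra hc
    push Not at hc
    exact hab0.ne (hf ((hc a0).trans (hc b0).symm))
  obtain ⟨j, x, hx⟩ := hform w
  have hxo : x ≠ o j := by
    rintro rfl
    exact hw (by rw [hx, emb_o])
  have hall : ∀ a, ∃ v : V j, f a = emb o j v := by
    intro a
    by_cases ha : f a = none
    · exact ⟨o j, by rw [ha, emb_o]⟩
    · obtain ⟨j', x', hx'⟩ := hform a
      have hxo' : x' ≠ o j' := by
        rintro rfl
        exact ha (by rw [hx', emb_o])
      have h1 := hconst w a hw ha
      rw [hx, hx', emb_ne o hxo, emb_ne o hxo'] at h1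
      have h2 : j = j' := by simpa using h1
      subst h2
      exact ⟨x', hx'⟩
  choose g hg using hall
  refine ⟨j, g, ?_, hg, ?_⟩
  · intro a b hab
    apply hf
    rw [hg a, hg b, hab]
  · intro a b hab
    have h1 := hadj a b hab
    rw [hg a, hg b] at h1
    exact glue_emb.1 h1

end glue

end Pool.Agent.Y587.FL
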