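import Pool.Agent.Results.MP_fc2b6d_co.Forests
import Pool.Agent.Y587.FL.Glue

open SimpleGraph Cardinal

namespace Pool.Agent.Y587.FL

open Pool.Agent.Results.MP_fc2b6d_co.Forests

/-- types of the vertices of the parts -/
def VV (A W κ : Type) : ℕ ⊕ κ → Type
  | .inl _ => ℕ × A
  | .inr _ => W

def oo {A W κ : Type} (r0 : A) (r : W) : ∀ j, VV A W κ j
  | .inl _ => ((0, r0) : ℕ × A)
  | .inr _ => r

def PP {A W κ : Type} (P : ℕ → SimpleGraph (ℕ × A)) (Q : κ → SimpleGraph W) :
    ∀ j, SimpleGraph (VV A W κ j)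
  | .inl n => P n
  | .inr k => Q k

/-- `H` consists of the copies `e i`, `i : ι`, of `K` glued at the vertex `r = e i r0`, and of a
remaining graph, which may only share the vertex `r` with them -/
structure Hang {W A : Type} (H : SimpleGraph W) (K : SimpleGraph A) (r0 : A) (r : W) {ι : Type}
    (e : ι → A → W) : Prop where
  root : ∀ i, e i r0 = r
  inj : ∀ i j a b, e i a = e j b → (i = j ∧ a = b) ∨ (a = r0 ∧ b = r0)
  adj : ∀ i a b, K.Adj a b → H.Adj (e i a) (e i b)
  dec : ∀ x y, H.Adj x y → (∃ i a b, K.Adj a b ∧ x = e i a ∧ y = e i b) ∨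
    ((∀ i a, x = e i a → a = r0) ∧ (∀ i a, y = e i a → a = r0))

/-- the remaining graph -/
def rest {W A : Type} (H : SimpleGraph W) (r0 : A) {ι : Type} (e : ι → A → W) :
    SimpleGraph W where
  Adj x y := H.Adj x y ∧ (∀ i a, x = e i a → a = r0) ∧ (∀ i a, y = e i a → a = r0)
  symm := ⟨fun _ _ h => ⟨h.1.symm, h.2.2, h.2.1⟩⟩
  loopless := ⟨fun _ h => H.loopless.irrefl _ h.1⟩

theorem hang_step {W A : Type} [Finite A] {H : SimpleGraph W} {K : SimpleGraph A}
    (hK : K.Connected) (hcut : ∀ v, (K.induce {v}ᶜ).Preconnected) (he : ∃ a b, K.Adj a b)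
    (r0 c0 : A) (hrc : r0 ≠ c0) (hadj0 : ¬ K.Adj r0 c0) (r : W) {ι : Type} [Finite ι]
    (e : ι → A → W) (hH : Hang H K r0 r e) (i1 i2 : ι) (hi : i1 ≠ i2)
    (hKR : ¬ K ⊑ rest H r0 e) : Fail H := by
  classical
  have einj : ∀ i, Function.Injective (e i) := by
    intro i a b hab
    rcases hH.inj i i a b hab with h | h
    · exact h.2
    · rw [h.1, h.2]
  set κ : Type := Set ℕ with hκ
  set R : SimpleGraph W := rest H r0 e with hR
  set o : ∀ j, VV A W κ j := oo r0 r with ho
  set G1 : ℕ → SimpleGraph (ℕ × A) := fun n => book K r0 c0 n with hG1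
  refine ⟨Option (Σ j, VV A W κ j), glue o (PP G1 (fun _ : κ => R)), fun F hF hFree => ?_⟩
  set P : ℕ → SimpleGraph (ℕ × A) :=
    fun n => F.comap (fun v : ℕ × A => emb o (.inl n) v) with hP
  set Q : κ → SimpleGraph W := fun k => F.comap (fun v : W => emb o (.inr k) v) with hQ
  have hFeq : ∀ x y, F.Adj x y ↔ (glue o (PP P Q)).Adj x y := by
    intro x y
    constructor
    · intro h
      obtain ⟨j, a, b, -, hx, hy⟩ := hF h
      refine ⟨j, a, b, ?_, hx, hy⟩
      rw [hx, hy] at h
      cases j with
      | inl n => exact h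
      | inr k => exact h
    · rintro ⟨j, a, b, h, rfl, rfl⟩
      cases j with
      | inl n => exact h
      | inr k => exact h
  have hPG : ∀ n, P n ≤ G1 n := by
    intro n a b h
    exact (glue_emb (o := o) (P := PP G1 (fun _ : κ => R)) (j := .inl n)).1 (hF h)
  have hQR : ∀ k, Q k ≤ R := by
    intro k a b h
    exact (glue_emb (o := o) (P := PP G1 (fun _ : κ => R)) (j := .inr k)).1 (hF h)
  -- a copy of `H` gives copies of `K`
  have hconf : ∀ (P' : ℕ → SimpleGraph (ℕ × A)) (Q' : κ → SimpleGraph W), (∀ k, Q' k ≤ R) →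
      ∀ f : W → Option (Σ j, VV A W κ j), Function.Injective f →
      (∀ x y, H.Adj x y → (glue o (PP P' Q')).Adj (f x) (f y)) →
      ∀ i, ∃ (n : ℕ) (g : A → ℕ × A), Function.Injective g ∧
        (∀ a, f (e i a) = emb o (.inl n) (g a)) ∧ ∀ a b, K.Adj a b → (P' n).Adj (g a) (g b) := by
    intro P' Q' hQ' f hf hfadj i
    obtain ⟨j, g, hg, hfg, hgadj⟩ := glue_conf hK hcut he (fun a => f (e i a))
      (hf.comp (einj i)) (fun a b hab => hfadj _ _ (hH.adj i a b hab))
    cases j with
    | inl n => exact ⟨n, g, hg, hfg, hgadj⟩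
    | inr k => exact absurd (contained_of g hg fun a b hab => hQ' k (hgadj a b hab)) hKR
  by_cases hfull : ∃ k0, R ≤ Q k0
  swap
  · push Not at hfull
    have hmiss : ∀ k, ∃ a b, R.Adj a b ∧ ¬ F.Adj (emb o (.inr k) a) (emb o (.inr k) b) := by
      intro k
      have := hfull k
      rw [SimpleGraph.le_iff_adj] at this
      push Not at this
      exact this
    choose x y hxy hxy' using hmiss
    refine ⟨glue o (PP (fun _ => ⊥) (fun _ => R)), glue_mono ?_, ?_, ?_⟩
    · intro j
      cases j with
      | inl n => exact bot_le (a := G1 n)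
      | inr k => exact le_refl R
    · rintro ⟨f⟩
      obtain ⟨n, g, hg, -, hgadj⟩ := hconf _ _ (fun _ => le_rfl) f f.injective
        (fun x y hxy => f.toHom.map_adj hxy) i1
      obtain ⟨a, b, hab⟩ := he
      exact hgadj a b hab
    · have h1 : #↥(F.edgeSet \ (glue o (PP (fun _ => (⊥ : SimpleGraph (ℕ × A)))
          (fun _ : κ => R))).edgeSet) ≤ ℵ₀ := by
        have : F.edgeSet \ (glue o (PP (fun _ => (⊥ : SimpleGraph (ℕ × A)))
            (fun _ : κ => R))).edgeSet ⊆
            Set.range (fun p : ℕ × (ℕ × A) × (ℕ × A) =>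
              s(emb o (.inl p.1) p.2.1, emb o (.inl p.1) p.2.2)) := by
          intro e'
          induction e' with
          | _ u v =>
            rintro ⟨hE, hne⟩
            rw [mem_edgeSet] at hE hne
            obtain ⟨j, a, b, hab, rfl, rfl⟩ := hF hE
            cases j with
            | inl n => exact ⟨(n, a, b), rfl⟩
            | inr k => exact absurd ⟨.inr k, a, b, hab, rfl, rfl⟩ hne
        exact ((Cardinal.mk_le_mk_of_subset this).trans Cardinal.mk_range_le).trans
          Cardinal.mk_le_aleph0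
      have h2 : #κ ≤ #↥((glue o (PP (fun _ => (⊥ : SimpleGraph (ℕ × A)))
          (fun _ : κ => R))).edgeSet \ F.edgeSet) := by
        refine Cardinal.mk_le_of_injective
          (f := fun k => ⟨s(emb o (.inr k) (x k), emb o (.inr k) (y k)), ?_, ?_⟩) ?_
        · exact ⟨.inr k, x k, y k, hxy k, rfl, rfl⟩
        · exact hxy' k
        · intro k k' hkk
          have h3 : s(emb o (.inr k) (x k), emb o (.inr k) (y k)) =
              s(emb o (.inr k') (x k'), emb o (.inr k') (y k')) := congrArg Subtype.val hkk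
          rw [Sym2.eq_iff] at h3
          have hne : x k ≠ y k := (hxy k).ne
          by_cases hx : x k = r
          · have hy : y k ≠ o (.inr k) := by
              intro h
              exact hne (hx.trans h.symm)
            rcases h3 with h | h
            · exact Sum.inr_injective (emb_idx o h.2 hy)
            · exact Sum.inr_injective (emb_idx o h.2 hy)
          · have hx' : x k ≠ o (.inr k) := hx
            rcases h3 with h | h
            · exact Sum.inr_injective (emb_idx o h.1 hx')
            · exact Sum.inr_injective (emb_idx o h.1 hx')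
      have h3 : ℵ₀ < #κ := by
        rw [hκ, Cardinal.mk_set, Cardinal.mk_nat]
        exact Cardinal.cantor _
      exact h1.trans_lt (h3.trans_le h2)
  obtain ⟨k0, hk0⟩ := hfull
  -- books containing `K` rooted at the centre
  set Bad : Set ℕ := {n | ∃ g : A → ℕ × A, Function.Injective g ∧ g r0 = (0, r0) ∧
    ∀ a b, K.Adj a b → (P n).Adj (g a) (g b)} with hBad
  have hBadfin : Bad.Finite := by
    by_contra hinf
    have hinf' : Bad.Infinite := hinf
    have h1 : Infinite Bad := hinf'.to_subtype
    set ν : ι ↪ Bad := ((Finite.equivFin _).toEmbedding.trans Fin.valEmbedding).trans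
          (Infinite.natEmbedding _) with hν
    have h2 : ∀ i, ∃ g : A → ℕ × A, Function.Injective g ∧ g r0 = (0, r0) ∧
      ∀ a b, K.Adj a b → (P (ν i)).Adj (g a) (g b) := fun i => (ν i).2
    choose g hg hgr hgadj using h2
    have hgo : ∀ i a, a ≠ r0 → g i a ≠ o (.inl (ν i : ℕ)) := by
      intro i a ha h
      exact ha (hg i (h.trans (hgr i).symm))
    set U : Set W := {w | ∃ i a, a ≠ r0 ∧ w = e i a} with hU
    have hnU : ∀ {w}, w ∉ U ↔ ∀ i a, w = e i a → a = r0 := by
      intro w
      constructor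
      · intro h i a hw
        by_contra hc
        exact h ⟨i, a, hc, hw⟩
      · rintro h ⟨i, a, ha, hw⟩
        exact ha (h i a hw)
    have : Nonempty ι := ⟨i1⟩
    have : Nonempty A := ⟨r0⟩
    have hch : ∀ w, w ∈ U → ∃ i a, a ≠ r0 ∧ w = e i a := fun w hw => hw
    choose! iw aw haw hw using hch
    set Φ : W → Option (Σ j, VV A W κ j) := fun w => if w ∈ U then
      emb o (.inl (ν (iw w) : ℕ)) (g (iw w) (aw w)) else emb o (.inr k0) w with hΦ
    have hΦU : ∀ i a, a ≠ r0 → Φ (e i a) = emb o (.inl (ν i : ℕ)) (g i a) := by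
      intro i a ha
      have hmem : e i a ∈ U := ⟨i, a, ha, rfl⟩
      have h3 := hw _ hmem
      rcases hH.inj _ _ _ _ h3 with ⟨h4, h5⟩ | h4
      · simp only [hΦ, hmem, if_true]
        rw [← h4, ← h5]
      · exact absurd h4.1 ha
    have hΦn : ∀ w, w ∉ U → Φ w = emb o (.inr k0) w := by
      intro w hw'
      simp only [hΦ, hw', if_false]
    have hrU : r ∉ U := by
      rintro ⟨i, a, ha, hra⟩
      rw [← hH.root i] at hra
      rcases hH.inj _ _ _ _ hra with h | h
      · exact ha h.2.symm
      · exact ha h.2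
    have hΦe : ∀ i a, Φ (e i a) = emb o (.inl (ν i : ℕ)) (g i a) := by
      intro i a
      by_cases ha : a = r0
      · subst ha
        rw [hH.root i, hΦn r hrU, hgr i]
        exact (emb_o o (.inr k0)).trans (emb_o o (.inl (ν i : ℕ))).symm
      · exact hΦU i a ha
    refine hFree (contained_of Φ ?_ ?_)
    · intro x y hxy
      by_cases hx : x ∈ U <;> by_cases hy : y ∈ U
      · obtain ⟨i, a, ha, rfl⟩ := hx
        obtain ⟨j, b, hb, rfl⟩ := hy
        rw [hΦe, hΦe] at hxy
        have h3 := emb_idx o hxy (hgo i a ha)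
        have h4 : ν i = ν j := Subtype.ext (Sum.inl_injective h3)
        have h5 : i = j := ν.injective h4
        subst h5
        rw [hg i (emb_inj o _ hxy)]
      · obtain ⟨i, a, ha, rfl⟩ := hx
        rw [hΦe, hΦn y hy] at hxy
        have h3 := emb_idx o hxy (hgo i a ha)
        exact absurd h3 (by simp)
      · obtain ⟨i, a, ha, rfl⟩ := hy
        rw [hΦe, hΦn x hx] at hxy
        have h3 := emb_idx o hxy.symm (hgo i a ha)
        exact absurd h3 (by simp)
      · rw [hΦn x hx, hΦn y hy] at hxy
        exact emb_inj o _ hxy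
    · intro x y hxy
      rcases hH.dec x y hxy with ⟨i, a, b, hab, rfl, rfl⟩ | ⟨hx, hy⟩
      · rw [hΦe, hΦe]
        exact hgadj i a b hab
      · rw [hΦn x (hnU.2 hx), hΦn y (hnU.2 hy)]
        exact hk0 ⟨hxy, hx, hy⟩
  -- the edges of the bad books
  set D : Set (Sym2 (Option (Σ j, VV A W κ j))) :=
    ⋃ n ∈ Bad, Sym2.map (fun v : ℕ × A => emb o (.inl n) v) '' (G1 n).edgeSet with hD
  have hDfin : D.Finite :=
    Set.Finite.biUnion hBadfin fun n _ => (book_finite n).image _
  obtain ⟨N, hN⟩ := (hBadfin.union (Set.finite_Iic D.ncard)).exists_notMem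
  rw [Set.mem_union, not_or] at hN
  obtain ⟨hNB, hND⟩ := hN
  have hND' : D.ncard < N := by
    rw [Set.mem_Iic] at hND
    omega
  set R1 : ℕ → SimpleGraph (ℕ × A) :=
    fun j => if j = N then G1 N else if j ∈ Bad then ⊥ else P j with hR1
  have hRN : R1 N = G1 N := by simp [hR1]
  have hRbad : ∀ j, j ≠ N → j ∈ Bad → R1 j = ⊥ := fun j h h' => by simp [hR1, h, h']
  have hRgood : ∀ j, j ≠ N → j ∉ Bad → R1 j = P j := fun j h h' => by simp [hR1, h, h']
  have hRle : ∀ j, R1 j ≤ G1 j := by
    intro j
    by_cases hj : j = N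
    · rw [hj, hRN]
    · by_cases hb : j ∈ Bad
      · rw [hRbad j hj hb]
        exact bot_le
      · rw [hRgood j hj hb]
        exact hPG j
  refine ⟨glue o (PP R1 Q), glue_mono ?_, ?_, ?_⟩
  · intro j
    cases j with
    | inl n => exact hRle n
    | inr k => exact hQR k
  · rintro ⟨f⟩
    have hf := f.injective
    obtain ⟨n, g, hg, hfg, hgadj⟩ := hconf _ _ hQR f hf (fun x y hxy => f.toHom.map_adj hxy) i1
    obtain ⟨n', g', hg', hfg', hgadj'⟩ :=
      hconf _ _ hQR f hf (fun x y hxy => f.toHom.map_adj hxy) i2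
    have hcen : ∀ (m : ℕ) (h : A → ℕ × A), Function.Injective h →
        (∀ a b, K.Adj a b → (R1 m).Adj (h a) (h b)) → ∀ z, (z = r0 ∨ z = c0) →
        ∃ a, h a = (0, z) := by
      intro m h hh hhadj z hz
      exact book_center hK hcut he m h hh (fun a b hab => hRle m (hhadj a b hab)) z hz
    -- the two copies meet in the centre
    obtain ⟨a1, ha1⟩ := hcen n g hg hgadj r0 (Or.inl rfl)
    obtain ⟨b1, hb1⟩ := hcen n' g' hg' hgadj' r0 (Or.inl rfl)
    have hfa : f (e i1 a1) = none := by
      rw [hfg a1, ha1]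
      exact emb_o o (.inl n)
    have hfb : f (e i2 b1) = none := by
      rw [hfg' b1, hb1]
      exact emb_o o (.inl n')
    have hroot : a1 = r0 ∧ b1 = r0 := by
      rcases hH.inj _ _ _ _ (hf (hfa.trans hfb.symm)) with h | h
      · exact absurd h.1 hi
      · exact h
    obtain ⟨ha1r, hb1r⟩ := hroot
    rw [ha1r] at ha1
    rw [hb1r] at hb1
    by_cases hnn : n = n'
    · subst hnn
      obtain ⟨a2, ha2⟩ := hcen n g hg hgadj c0 (Or.inr rfl)
      obtain ⟨b2, hb2⟩ := hcen n g' hg' hgadj' c0 (Or.inr rfl)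
      have h3 : f (e i1 a2) = f (e i2 b2) := by
        rw [hfg a2, hfg' b2, ha2, hb2]
      rcases hH.inj _ _ _ _ (hf h3) with h | h
      · exact hi h.1
      · rw [h.1, ha1] at ha2
        exact hrc (Prod.mk.inj ha2).2
    · -- one of the two books is not `N`
      have hfin : ∀ (m : ℕ) (h : A → ℕ × A), Function.Injective h → h r0 = (0, r0) →
          (∀ a b, K.Adj a b → (R1 m).Adj (h a) (h b)) → m = N := by
        intro m h hh hr hhadj
        by_contra hm
        obtain ⟨a, b, hab⟩ := he
        by_cases hb : m ∈ Bad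
        · rw [hRbad m hm hb] at hhadj
          exact hhadj a b hab
        · rw [hRgood m hm hb] at hhadj
          exact hb ⟨h, hh, hr, hhadj⟩
      exact hnn ((hfin n g hg ha1 hgadj).trans (hfin n' g' hg' hb1 hgadj').symm)
  · have h1 : #↥(F.edgeSet \ (glue o (PP R1 Q)).edgeSet) ≤ (D.ncard : Cardinal) := by
      have : F.edgeSet \ (glue o (PP R1 Q)).edgeSet ⊆ D := by
        intro e'
        induction e' with
        | _ u v =>
          rintro ⟨hE, hne⟩
          rw [mem_edgeSet] at hE hne
          obtain ⟨j, a, b, hab, rfl, rfl⟩ := (hFeq _ _).1 hE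
          cases j with
          | inr k => exact absurd ⟨.inr k, a, b, hab, rfl, rfl⟩ hne
          | inl n =>
            have hab' : (P n).Adj a b := hab
            have hj : n ∈ Bad := by
              by_contra hc
              apply hne
              refine ⟨.inl n, a, b, ?_, rfl, rfl⟩
              change (R1 n).Adj a b
              by_cases hjN : n = N
              · rw [hjN, hRN]
                rw [hjN] at hab'
                exact hPG N hab'
              · rw [hRgood n hjN hc]
                exact hab'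
            rw [hD]
            simp only [Set.mem_iUnion, Set.mem_image]
            exact ⟨n, hj, s((a : ℕ × A), b), hPG n hab', rfl⟩
      calc #↥(F.edgeSet \ (glue o (PP R1 Q)).edgeSet) ≤ #↥D := Cardinal.mk_le_mk_of_subset this
        _ = (D.ncard : Cardinal) := (Set.cast_ncard hDfin).symm
    have h2 : (N : Cardinal) ≤ #↥((glue o (PP R1 Q)).edgeSet \ F.edgeSet) := by
      have h3 : (N : Cardinal) ≤ #↥((G1 N).edgeSet \ (P N).edgeSet) := by
        refine book_miss hadj0 ?_
        rintro ⟨g, hg, hr, hadj⟩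
        exact hNB ⟨g, hg, hr, hadj⟩
      refine h3.trans ?_
      have hinj : Function.Injective (Sym2.map (fun v : ℕ × A => emb o (.inl N) v)) :=
        Sym2.map.injective (emb_inj o (.inl N))
      rw [← Cardinal.mk_image_eq hinj]
      refine Cardinal.mk_le_mk_of_subset ?_
      rintro _ ⟨e', he', rfl⟩
      induction e' with
      | _ a b =>
        refine ⟨⟨.inl N, a, b, ?_, rfl, rfl⟩, he'.2⟩
        change (R1 N).Adj a b
        rw [hRN]
        exact he'.1
    exact h1.trans_lt ((Nat.cast_lt.2 hND').trans_le h2)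

end Pool.Agent.Y587.FL
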