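import Mathlib

open SimpleGraph

namespace Pool.Agent.Y587.FL

variable {W : Type} (K : SimpleGraph W) (c : W)

open Classical in
/-- the `i`-th petal: the vertex `c` of all petals is identified -/
noncomputable def pet (i : ℕ) (a : W) : ℕ × W := if a = c then (0, c) else (i, a)

theorem pet_c (i : ℕ) : pet c i c = (0, c) := by simp [pet]

theorem pet_ne (i : ℕ) {a : W} (h : a ≠ c) : pet c i a = (i, a) := by simp [pet, h]

theorem pet_snd (i : ℕ) (a : W) : (pet c i a).2 = a := by
  by_cases h : a = c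
  · rw [h, pet_c]
  · rw [pet_ne c i h]

theorem pet_inj (i : ℕ) : Function.Injective (pet c i) := by
  intro a b h
  rw [← pet_snd c i a, ← pet_snd c i b, h]

theorem pet_idx {i j : ℕ} {a b : W} (h : pet c i a = pet c j b) (ha : a ≠ c) : i = j := by
  have h2 : a = b := by rw [← pet_snd c i a, ← pet_snd c j b, h]
  subst h2
  rw [pet_ne c i ha, pet_ne c j ha] at h
  exact (Prod.mk.inj h).1

/-- `n` copies of `K` glued at the vertex `c` -/
noncomputable def flower (n : ℕ) : SimpleGraph (ℕ × W) where
  Adj x y := ∃ i, i < n ∧ ∃ a b, K.Adj a b ∧ x = pet c i a ∧ y = pet c i b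
  symm := ⟨by
    rintro x y ⟨i, hi, a, b, h, hx, hy⟩
    exact ⟨i, hi, b, a, h.symm, hy, hx⟩⟩
  loopless := ⟨by
    rintro x ⟨i, hi, a, b, h, hx, hy⟩
    have : a = b := pet_inj c i (hx.symm.trans hy)
    subst this
    exact K.loopless.irrefl _ h⟩

variable {K} {c}

theorem exists_nbr (hK : K.Connected) (he : ∃ a b, K.Adj a b) (v : W) : ∃ w, K.Adj v w := by
  obtain ⟨a, b, hab⟩ := he
  have key : ∀ u, u ≠ v → ∃ w, K.Adj v w := by
    intro u hu
    obtain ⟨p⟩ := hK.preconnected v u
    cases p with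
    | nil => exact absurd rfl hu
    | cons h _ => exact ⟨_, h⟩
  by_cases ha : a = v
  · exact ⟨b, ha ▸ hab⟩
  · exact key a ha

/-- every copy of `K` in a flower contains the centre -/
theorem flower_center [Finite W] (hK : K.Connected) (he : ∃ a b, K.Adj a b) (n : ℕ)
    (f : W → ℕ × W) (hf : Function.Injective f)
    (hadj : ∀ a b, K.Adj a b → (flower K c n).Adj (f a) (f b)) : ∃ a, f a = (0, c) := by
  by_contra hc
  push Not at hc
  have hedge : ∀ a b, K.Adj a b → (f a).1 = (f b).1 ∧ (f a).2 ≠ c := by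
    intro a b hab
    obtain ⟨i, -, x, y, -, hx, hy⟩ := hadj a b hab
    have hxc : x ≠ c := by
      rintro rfl
      exact hc a (by rw [hx, pet_c])
    have hyc : y ≠ c := by
      rintro rfl
      exact hc b (by rw [hy, pet_c])
    rw [pet_ne c i hxc] at hx
    rw [pet_ne c i hyc] at hy
    rw [hx, hy]
    exact ⟨rfl, hxc⟩
  have hconst : ∀ a b, (f a).1 = (f b).1 := by
    intro a b
    obtain ⟨p⟩ := hK.preconnected a b
    induction p with
    | nil => rfl
    | cons h _ ih => exact (hedge _ _ h).1.trans ih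
  have hinj : Function.Injective fun a => (f a).2 := by
    intro a b hab
    exact hf (Prod.ext (hconst a b) hab)
  obtain ⟨a, ha⟩ := (Finite.injective_iff_surjective.1 hinj) c
  obtain ⟨b, hb⟩ := exists_nbr hK he a
  exact (hedge a b hb).2 ha

theorem flower_finite [Finite W] (n : ℕ) : (flower K c n).edgeSet.Finite := by
  have h1 : (⋃ i ∈ Finset.range n, Sym2.map (pet c i) '' (Set.univ : Set (Sym2 W))).Finite :=
    Set.Finite.biUnion (Finset.finite_toSet _) fun i _ => Set.Finite.image _ Set.finite_univ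
  refine h1.subset ?_
  intro e
  induction e with
  | _ x y =>
    rintro ⟨i, hi, a, b, -, hx, hy⟩
    simp only [Set.mem_iUnion, Set.mem_image]
    have hx' : x = pet c i a := hx
    have hy' : y = pet c i b := hy
    exact ⟨i, Finset.mem_range.2 hi, s(a, b), trivial, by rw [hx', hy']; rfl⟩

theorem flower_miss {n : ℕ} {P : SimpleGraph (ℕ × W)}
    (hfree : ¬ ∃ f : W → ℕ × W, Function.Injective f ∧ ∀ a b, K.Adj a b → P.Adj (f a) (f b)) :
    (n : Cardinal) ≤ Cardinal.mk ↥((flower K c n).edgeSet \ P.edgeSet) := by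
  have h1 : ∀ i : Fin n, ∃ a b, K.Adj a b ∧ ¬ P.Adj (pet c i a) (pet c i b) := by
    intro i
    by_contra hc
    push Not at hc
    exact hfree ⟨pet c i, pet_inj c i, hc⟩
  choose x y hxy hP using h1
  rw [← Cardinal.mk_fin]
  refine Cardinal.mk_le_of_injective
    (f := fun i : Fin n => ⟨s(pet c i (x i), pet c i (y i)), ?_, ?_⟩) ?_
  · exact ⟨i, i.2, _, _, hxy i, rfl, rfl⟩
  · exact hP i
  · intro i j hij
    have h3 : s(pet c i (x i), pet c i (y i)) = s(pet c j (x j), pet c j (y j)) :=
      congrArg Subtype.val hij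
    rw [Sym2.eq_iff] at h3
    by_cases hx : x i = c
    · have hy : y i ≠ c := by
        intro hy
        have := hxy i
        rw [hx, hy] at this
        exact K.loopless.irrefl _ this
      rcases h3 with h | h
      · exact Fin.ext (pet_idx c h.2 hy)
      · exact Fin.ext (pet_idx c h.2 hy)
    · rcases h3 with h | h
      · exact Fin.ext (pet_idx c h.1 hx)
      · exact Fin.ext (pet_idx c h.1 hx)

end Pool.Agent.Y587.FL
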