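import Pool.Agent.Results.MP_fc2b6d_co.Forests
import Pool.Agent.Y587.FL.Flower

open SimpleGraph Cardinal

namespace Pool.Agent.Y587.FL

open Pool.Agent.Results.MP_fc2b6d_co.Forests

/-- a connected component mapped into the `N`-th block hits the centre of this block -/
theorem hits {W V1 K : Type} {H : SimpleGraph W} {P : ℕ → SimpleGraph V1}
    {Q : K → SimpleGraph W} (f : H.Copy (mk2 P Q)) (C : H.ConnectedComponent) (N : ℕ) (c0 : V1)
    (hin : ∃ a ∈ C.supp, ∃ v, f a = .inl (N, v)) {A : Type} (K1 : SimpleGraph A)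
    (hK1 : K1 ⊑ C.toSimpleGraph)
    (hcen : ∀ g : A → V1, Function.Injective g → (∀ a b, K1.Adj a b → (P N).Adj (g a) (g b)) →
      ∃ a, g a = c0) :
    ∃ a ∈ C.supp, f a = .inl (N, c0) := by
  obtain ⟨a, ha, v, hv⟩ := hin
  have hr : ∀ b : C, H.Reachable a b := by
    rintro ⟨b, hb⟩
    have ha' : H.connectedComponentMk a = C := ha
    have hb' : H.connectedComponentMk b = C := hb
    exact ConnectedComponent.exact (ha'.trans hb'.symm)
  have : ∀ b : C, ∃ u, f b = .inl (N, u) := fun b => (mk2_walk f (hr b)).1 N ⟨v, hv⟩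
  choose g hg using this
  obtain ⟨k⟩ := hK1
  obtain ⟨x, hx⟩ := hcen (fun y => g (k y)) (by
    intro y z hyz
    have hyz' : g (k y) = g (k z) := hyz
    have h1 : f (k y) = f (k z) := by rw [hg, hg, hyz']
    exact k.injective (Subtype.ext (f.injective h1))) (by
    intro y z hyz
    have h1 : C.toSimpleGraph.Adj (k y) (k z) := k.toHom.map_adj hyz
    have h2 : (mk2 P Q).Adj (f (k y)) (f (k z)) := f.toHom.map_adj h1
    rw [hg, hg] at h2
    exact h2.2)
  exact ⟨k x, (k x).2, by rw [hg, hx]⟩

/-- a graph of any cardinality with a finite component which is maximal with respect to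
containment and occurs a finite number of times, but at least twice, fails -/
theorem twice_step {W : Type} {H : SimpleGraph W} (C1 C2 : H.ConnectedComponent)
    (hC1 : Finite C1)
    (hT : {C : H.ConnectedComponent | C1.toSimpleGraph ⊑ C.toSimpleGraph}.Finite)
    (hne : C1 ≠ C2) (h12 : C1.toSimpleGraph ⊑ C2.toSimpleGraph)
    (hedge : ∃ a b, C1.toSimpleGraph.Adj a b)
    (hmaxC : ∀ C : H.ConnectedComponent, C1.toSimpleGraph ⊑ C.toSimpleGraph →
      C.toSimpleGraph ⊑ C1.toSimpleGraph) : Fail H := by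
  classical
  obtain ⟨c, c', hcc⟩ := id hedge
  set V1 : Type := ℕ × C1 with hV1def
  have hV1 : Nonempty V1 := ⟨(0, c)⟩
  set G1 : ℕ → SimpleGraph V1 := fun n => flower C1.toSimpleGraph c n with hG1def
  have hconn : C1.toSimpleGraph.Connected := C1.connected_toSimpleGraph
  set B : Set W := {w | C1.toSimpleGraph ⊑ (H.connectedComponentMk w).toSimpleGraph} with hB
  have hBadj : ∀ a b, H.Adj a b → (a ∈ B ↔ b ∈ B) := by
    intro a b hab
    have : H.connectedComponentMk a = H.connectedComponentMk b :=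
      ConnectedComponent.sound hab.reachable
    rw [hB, Set.mem_ofPred_eq, Set.mem_ofPred_eq, this]
  set HR : SimpleGraph W :=
    { Adj := fun a b => H.Adj a b ∧ a ∉ B ∧ b ∉ B
      symm := ⟨fun a b h => ⟨h.1.symm, h.2.2, h.2.1⟩⟩
      loopless := ⟨fun a h => H.loopless.irrefl _ h.1⟩ } with hHR
  have hHRle : HR ≤ H := fun u v huv => huv.1
  have hnotHR : ¬ C1.toSimpleGraph ⊑ HR := by
    rintro ⟨g⟩
    obtain ⟨a, b, hab⟩ := hedge
    have h1 : HR.Adj (g a) (g b) := g.toHom.map_adj hab
    apply h1.2.1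
    have hr : ∀ x, H.connectedComponentMk (g x) = H.connectedComponentMk (g a) := by
      intro x
      apply ConnectedComponent.sound
      have h2 : C1.toSimpleGraph.Reachable x a := C1.connected_toSimpleGraph.preconnected x a
      have h3 : HR.Reachable (g x) (g a) := h2.map g.toHom
      exact h3.mono hHRle
    refine contained_of (fun x => ⟨g x, hr x⟩) ?_ ?_
    · intro x y hxy
      exact g.injective (congrArg Subtype.val hxy)
    · intro x y hxy
      have h2 : HR.Adj (g x) (g y) := g.toHom.map_adj hxy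
      exact h2.1
  set K : Type := Set (V1 ⊕ ℕ) with hK
  refine ⟨(ℕ × V1) ⊕ (K × W), mk2 G1 (fun _ : K => HR), fun F hF hFree => ?_⟩
  -- the pieces of `F`
  set P : ℕ → SimpleGraph V1 := fun i => F.comap fun v => (.inl (i, v) : (ℕ × V1) ⊕ (K × W)) with hP
  set Q : K → SimpleGraph W := fun k => F.comap fun v => (.inr (k, v) : (ℕ × V1) ⊕ (K × W)) with hQ
  have hFeq : ∀ a b, F.Adj a b ↔ (mk2 P Q).Adj a b := by
    intro a b
    constructor
    · intro h
      have h1 := hF h
      rcases a with ⟨i, u⟩ | ⟨k, a⟩ <;> rcases b with ⟨j, v⟩ | ⟨l, b⟩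
      · obtain ⟨rfl, -⟩ := h1
        exact ⟨rfl, h⟩
      · exact h1.elim
      · exact h1.elim
      · obtain ⟨rfl, -⟩ := h1
        exact ⟨rfl, h⟩
    · intro h
      rcases a with ⟨i, u⟩ | ⟨k, a⟩ <;> rcases b with ⟨j, v⟩ | ⟨l, b⟩
      · obtain ⟨rfl, h⟩ := h
        exact h
      · exact h.elim
      · exact h.elim
      · obtain ⟨rfl, h⟩ := h
        exact h
  have hPG : ∀ i, P i ≤ G1 i := fun i u v h => (hF h).2
  have hQH : ∀ k, Q k ≤ HR := fun k u v h => (hF h).2
  have hbig : #(Sym2 (ℕ × V1)) < #K := by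
    have h1 : #(Sym2 (ℕ × V1)) ≤ #((ℕ × V1) × (ℕ × V1)) :=
      Cardinal.mk_le_of_surjective (Quot.mk_surjective)
    have h2 : #((ℕ × V1) × (ℕ × V1)) ≤ #(V1 ⊕ ℕ) := by
      rw [Cardinal.mk_prod, Cardinal.mk_prod, Cardinal.mk_sum]
      simp only [Cardinal.lift_id, Cardinal.mk_nat]
      have h3 : #V1 ≤ #V1 + ℵ₀ := self_le_add_right _ _
      have h4 : ℵ₀ ≤ #V1 + ℵ₀ := self_le_add_left _ _
      calc ℵ₀ * #V1 * (ℵ₀ * #V1) ≤ (#V1 + ℵ₀) * (#V1 + ℵ₀) * ((#V1 + ℵ₀) * (#V1 + ℵ₀)) :=
            mul_le_mul' (mul_le_mul' h4 h3) (mul_le_mul' h4 h3)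
        _ = #V1 + ℵ₀ := by rw [Cardinal.mul_eq_self h4, Cardinal.mul_eq_self h4]
    calc #(Sym2 (ℕ × V1)) ≤ #(V1 ⊕ ℕ) := h1.trans h2
      _ < #K := by rw [hK, Cardinal.mk_set]; exact Cardinal.cantor _
  by_cases hfull : ∃ k0, HR ≤ Q k0
  swap
  · -- no full copy of the rest
    push Not at hfull
    have hmiss : ∀ k, ∃ a b, HR.Adj a b ∧ ¬ F.Adj (.inr (k, a)) (.inr (k, b)) := by
      intro k
      have := hfull k
      rw [SimpleGraph.le_iff_adj] at this
      push Not at this
      exact this
    choose x y hxy hxy' using hmiss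
    refine ⟨mk2 (fun _ => ⊥) (fun _ => HR), ?_, ?_, ?_⟩
    · rintro (⟨i, u⟩ | ⟨k, a⟩) (⟨j, v⟩ | ⟨l, b⟩) h
      · exact h.2.elim
      · exact h
      · exact h
      · exact h
    · rintro ⟨f⟩
      obtain ⟨a, b, hab⟩ := hedge
      have hb := mk2_block f C1 a a.2
      rcases hfa : f a with ⟨i, v⟩ | ⟨k, v⟩
      · have h1 := hb.1 i v hfa
        obtain ⟨g⟩ := h1
        exact g.toHom.map_adj hab
      · exact hnotHR (hb.2 k v hfa)
    · have h1 : #↥(F.edgeSet \ (mk2 (fun _ => (⊥ : SimpleGraph V1)) (fun _ : K => HR)).edgeSet) ≤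
          #(Sym2 (ℕ × V1)) := by
        have : F.edgeSet \ (mk2 (fun _ => (⊥ : SimpleGraph V1)) (fun _ : K => HR)).edgeSet ⊆
            Set.range (Sym2.map (Sum.inl : (ℕ × V1) → (ℕ × V1) ⊕ (K × W))) := by
          intro e
          induction e with
          | _ a b =>
            rintro ⟨he, hne⟩
            rw [mem_edgeSet] at he hne
            have h2 := hF he
            rcases a with u | ⟨v, k⟩ <;> rcases b with u' | ⟨v', k'⟩
            · exact ⟨s(u, u'), by simp⟩
            · exact h2.elim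
            · exact h2.elim
            · exact absurd h2 hne
        exact (Cardinal.mk_le_mk_of_subset this).trans Cardinal.mk_range_le
      have h2 : #K ≤ #↥((mk2 (fun _ => (⊥ : SimpleGraph V1)) (fun _ : K => HR)).edgeSet \
          F.edgeSet) := by
        refine Cardinal.mk_le_of_injective
          (f := fun k => ⟨s(.inr (k, x k), .inr (k, y k)), ?_, ?_⟩) ?_
        · exact ⟨rfl, hxy k⟩
        · exact hxy' k
        · intro k k' hkk
          have h3 : s((.inr (k, x k) : (ℕ × V1) ⊕ (K × W)), .inr (k, y k)) =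
              s(.inr (k', x k'), .inr (k', y k')) := congrArg Subtype.val hkk
          simp only [Sym2.eq_iff, Sum.inr.injEq, Prod.mk.injEq] at h3
          rcases h3 with h | h
          · exact h.1.1
          · exact h.1.1
      exact h1.trans_lt (hbig.trans_le h2)
  obtain ⟨k0, hk0⟩ := hfull
  -- only finitely many blocks contain `C1`
  set Bad : Set ℕ := {i | C1.toSimpleGraph ⊑ P i} with hBad
  have hBadfin : Bad.Finite := by
    by_contra hinf
    have hinf' : Bad.Infinite := hinf
    obtain ⟨ι, hιB, hιinj⟩ : ∃ ι : H.ConnectedComponent → ℕ,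
        (∀ C, C1.toSimpleGraph ⊑ C.toSimpleGraph → ι C ∈ Bad) ∧
        ∀ C C', C1.toSimpleGraph ⊑ C.toSimpleGraph → C1.toSimpleGraph ⊑ C'.toSimpleGraph →
          ι C = ι C' → C = C' := by
      have h1 : Infinite Bad := hinf'.to_subtype
      have h2 : Finite {C : H.ConnectedComponent | C1.toSimpleGraph ⊑ C.toSimpleGraph} :=
        hT.to_subtype
      set e : {C : H.ConnectedComponent | C1.toSimpleGraph ⊑ C.toSimpleGraph} ↪ Bad :=
        ((Finite.equivFin _).toEmbedding.trans Fin.valEmbedding).trans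
          (Infinite.natEmbedding _) with he
      refine ⟨fun C => if h : C1.toSimpleGraph ⊑ C.toSimpleGraph then (e ⟨C, h⟩ : ℕ) else 0,
        ?_, ?_⟩
      · intro C hC
        simp only [hC, dif_pos]
        exact (e ⟨C, hC⟩).2
      · intro C C' hC hC' h
        simp only [hC, hC', dif_pos] at h
        exact congrArg Subtype.val (e.injective (Subtype.ext h))
    have hcopy : ∀ C : H.ConnectedComponent, C1.toSimpleGraph ⊑ C.toSimpleGraph →
        ∃ φ : W → V1, (∀ a ∈ C.supp, ∀ b ∈ C.supp, φ a = φ b → a = b) ∧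
          ∀ a ∈ C.supp, ∀ b ∈ C.supp, H.Adj a b → (P (ι C)).Adj (φ a) (φ b) := by
      intro C hC
      have hbadC : C1.toSimpleGraph ⊑ P (ι C) := hιB C hC
      obtain ⟨g⟩ := (hmaxC C hC).trans hbadC
      refine ⟨fun w => if hw : w ∈ C.supp then g ⟨w, hw⟩ else Classical.arbitrary V1, ?_, ?_⟩
      · intro a ha b hb hab
        simp only [ha, hb, dif_pos] at hab
        have := g.injective hab
        simpa using this
      · intro a ha b hb hab
        simp only [ha, hb, dif_pos]
        have h1 : C.toSimpleGraph.Adj ⟨a, ha⟩ ⟨b, hb⟩ := hab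
        exact g.toHom.map_adj h1
    choose! φ hφ1 hφ2 using hcopy
    refine hFree (contained_of (fun w => if w ∈ B then
        .inl (ι (H.connectedComponentMk w), φ (H.connectedComponentMk w) w)
        else .inr (k0, w)) ?_ ?_)
    · intro a b hab
      by_cases ha : a ∈ B <;> by_cases hb : b ∈ B
      · simp only [ha, hb, if_true, Sum.inl.injEq, Prod.mk.injEq] at hab
        have h1 := hιinj _ _ ha hb hab.1
        rw [← h1] at hab
        exact hφ1 _ ha a rfl b h1.symm hab.2
      · simp [ha, hb] at hab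
      · simp [ha, hb] at hab
      · simp only [ha, hb, if_false, Sum.inr.injEq, Prod.mk.injEq] at hab
        exact hab.2
    · intro a b hab
      have hmk : H.connectedComponentMk a = H.connectedComponentMk b :=
        ConnectedComponent.sound hab.reachable
      rw [hFeq]
      by_cases ha : a ∈ B
      · have hb := (hBadj a b hab).1 ha
        simp only [ha, hb, if_true]
        rw [← hmk]
        exact ⟨rfl, hφ2 _ ha a rfl b hmk.symm hab⟩
      · have hb : b ∉ B := fun h => ha ((hBadj a b hab).2 h)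
        simp only [ha, hb, if_false]
        exact ⟨rfl, hk0 ⟨hab, ha, hb⟩⟩
  -- the edges of the bad blocks
  set ε : ℕ → V1 → (ℕ × V1) ⊕ (K × W) := fun i v => .inl (i, v) with hε
  have hεinj : ∀ i, Function.Injective (ε i) := by
    intro i u v huv
    simpa [hε] using huv
  set D : Set (Sym2 ((ℕ × V1) ⊕ (K × W))) :=
    ⋃ i ∈ Bad, Sym2.map (ε i) '' (G1 i).edgeSet with hD
  have hDfin : D.Finite :=
    Set.Finite.biUnion hBadfin fun i _ => (flower_finite i).image _
  obtain ⟨N, hN⟩ := (hBadfin.union (Set.finite_Iic D.ncard)).exists_notMem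
  rw [Set.mem_union, not_or] at hN
  obtain ⟨hNB, hND⟩ := hN
  have hND' : D.ncard < N := by
    rw [Set.mem_Iic] at hND
    omega
  set R : ℕ → SimpleGraph V1 := fun j => if j = N then G1 N else if j ∈ Bad then ⊥ else P j with hR
  have hRN : R N = G1 N := by simp [hR]
  have hRbad : ∀ j, j ≠ N → j ∈ Bad → R j = ⊥ := fun j h h' => by simp [hR, h, h']
  have hRgood : ∀ j, j ≠ N → j ∉ Bad → R j = P j := fun j h h' => by simp [hR, h, h']
  have hRle : ∀ j, R j ≤ G1 j := by
    intro j
    by_cases hj : j = N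
    · rw [hj, hRN]
    · by_cases hb : j ∈ Bad
      · rw [hRbad j hj hb]
        exact bot_le
      · rw [hRgood j hj hb]
        exact hPG j
  refine ⟨mk2 R Q, ?_, ?_, ?_⟩
  · rintro (⟨j, u⟩ | ⟨k, a⟩) (⟨j', v⟩ | ⟨l, b⟩) h
    · exact ⟨h.1, hRle _ h.2⟩
    · exact h
    · exact h
    · exact ⟨h.1, hQH _ h.2⟩
  · rintro ⟨f⟩
    -- components containing `C1` are mapped to the block `N`
    have hpos : ∀ C : H.ConnectedComponent, C1.toSimpleGraph ⊑ C.toSimpleGraph →
        ∃ a ∈ C.supp, ∃ v, f a = .inl (N, v) := by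
      intro C hC
      obtain ⟨k⟩ := id hC
      have hb := mk2_block f C (k c) (k c).2
      refine ⟨k c, (k c).2, ?_⟩
      rcases hfw : f (k c) with ⟨j, v⟩ | ⟨k', v⟩
      · have h1 := hC.trans (hb.1 j v hfw)
        by_cases hj : j = N
        · exact ⟨v, by rw [hj]⟩
        · exfalso
          by_cases hjb : j ∈ Bad
          · rw [hRbad j hj hjb] at h1
            obtain ⟨g⟩ := h1
            exact g.toHom.map_adj hcc
          · rw [hRgood j hj hjb] at h1
            exact hjb h1
      · exfalso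
        obtain ⟨g⟩ := hC.trans (hb.2 k' v hfw)
        exact hnotHR (contained_of g g.injective fun a b hab => hQH k' (g.toHom.map_adj hab))
    have hcen : ∀ g : C1 → V1, Function.Injective g →
        (∀ a b, C1.toSimpleGraph.Adj a b → (R N).Adj (g a) (g b)) → ∃ a, g a = (0, c) := by
      intro g hg hadj
      rw [hRN] at hadj
      exact flower_center hconn hedge N g hg hadj
    have hself : C1.toSimpleGraph ⊑ C1.toSimpleGraph := IsContained.refl _
    obtain ⟨a, ha, hfa⟩ := hits f C1 N (0, c) (hpos C1 hself) C1.toSimpleGraph hself hcen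
    obtain ⟨b, hb, hfb⟩ := hits f C2 N (0, c) (hpos C2 h12) C1.toSimpleGraph h12 hcen
    have hab : a = b := f.injective (hfa.trans hfb.symm)
    subst hab
    have h1 : H.connectedComponentMk a = C1 := ha
    have h2 : H.connectedComponentMk a = C2 := hb
    exact hne (h1.symm.trans h2)
  · have hinj : Function.Injective (Sym2.map (ε N)) := Sym2.map.injective (hεinj N)
    have h1 : #↥(F.edgeSet \ (mk2 R Q).edgeSet) ≤ (D.ncard : Cardinal) := by
      have : F.edgeSet \ (mk2 R Q).edgeSet ⊆ D := by
        intro e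
        induction e with
        | _ a b =>
          rintro ⟨he, hne⟩
          rw [mem_edgeSet] at he hne
          have he' := (hFeq _ _).1 he
          rcases a with ⟨j, u⟩ | ⟨k, a⟩ <;> rcases b with ⟨j', v⟩ | ⟨l, b⟩
          · obtain ⟨rfl, h2⟩ := he'
            have hj : j ∈ Bad := by
              by_contra hc
              apply hne
              refine ⟨rfl, ?_⟩
              by_cases hjN : j = N
              · rw [hjN, hRN]
                rw [hjN] at h2
                exact hPG N h2
              · rw [hRgood j hjN hc]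
                exact h2
            rw [hD]
            simp only [Set.mem_iUnion, Set.mem_image]
            exact ⟨j, hj, s(u, v), hPG j h2, by simp [hε]⟩
          · exact he'.elim
          · exact he'.elim
          · exact absurd he' hne
      calc #↥(F.edgeSet \ (mk2 R Q).edgeSet) ≤ #↥D := Cardinal.mk_le_mk_of_subset this
        _ = (D.ncard : Cardinal) := (Set.cast_ncard hDfin).symm
    have h2 : (N : Cardinal) ≤ #↥((mk2 R Q).edgeSet \ F.edgeSet) := by
      have h3 : (N : Cardinal) ≤ #↥((G1 N).edgeSet \ (P N).edgeSet) := by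
        refine flower_miss ?_
        rintro ⟨g, hg, hadj⟩
        exact hNB (contained_of g hg hadj)
      refine h3.trans ?_
      rw [← Cardinal.mk_image_eq hinj]
      refine Cardinal.mk_le_mk_of_subset ?_
      rintro _ ⟨e, he, rfl⟩
      induction e with
      | _ a b =>
        refine ⟨⟨rfl, ?_⟩, he.2⟩
        rw [hRN]
        exact he.1
    exact h1.trans_lt ((Nat.cast_lt.2 hND').trans_le h2)

end Pool.Agent.Y587.FL
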